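import Pool.Agent.W209.CF.Basic

/-!
Gadgets of the project CF3: `flip`, `del`, `hit`.
-/

namespace Pool.Agent.W260.CF3

open Finset Pool.Agent.W209.CF

section
variable {V E : Type} [Fintype V] [DecidableEq V] [Fintype E] [DecidableEq E]
variable {inc : E → Finset V}

theorem kd_erase {K : Finset E} {e : E} (he : e ∈ K) (v : V) :
    kd inc K v = kd inc (K.erase e) v + (if v ∈ inc e then 1 else 0) := by
  unfold kd
  by_cases h : v ∈ inc e
  · rw [if_pos h]
    have h1 : (K.erase e).filter (fun e => v ∈ inc e) = (K.filter (fun e => v ∈ inc e)).erase e := by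
      ext e'
      simp only [mem_filter, mem_erase]
      tauto
    have h2 : e ∈ K.filter (fun e => v ∈ inc e) := mem_filter.2 ⟨he, h⟩
    rw [h1, Finset.card_erase_of_mem h2]
    have := Finset.card_pos.2 ⟨e, h2⟩
    omega
  · rw [if_neg h, Nat.add_zero]
    congr 1
    ext e'
    simp only [mem_filter, mem_erase]
    constructor
    · rintro ⟨h1, h2⟩
      refine ⟨⟨?_, h1⟩, h2⟩
      rintro rfl
      exact h h2
    · rintro ⟨⟨_, h1⟩, h2⟩
      exact ⟨h1, h2⟩

theorem dg_col {c : E → Fin 3} {K : Finset E} {e : E} (he : e ∈ K)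
    (hc : ∀ e', c e' ≠ 0 ↔ (e' ∈ K ∧ e' ≠ e)) (v : V) :
    kd inc K v = dg inc c v + (if v ∈ inc e then 1 else 0) := by
  rw [kd_erase he, dg_eq_kd (K := K.erase e)]
  intro e'
  rw [hc e', mem_erase]
  tauto

/-- both colours from `α` and `opp α` -/
theorem both_of {c : E → Fin 3} {α : Fin 3} (hα : α ≠ 0) {v : V} {P : ℕ → Prop}
    (h1 : P (cnt inc c α v)) (h2 : P (cnt inc c (opp α) v)) :
    P (cnt inc c 1 v) ∧ P (cnt inc c 2 v) := by
  rcases eq_one_or_two hα with rfl | rfl
  · rw [opp_one] at h2
    exact ⟨h1, h2⟩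
  · rw [opp_two] at h2
    exact ⟨h2, h1⟩

theorem dg_alt (c : E → Fin 3) {α : Fin 3} (hα : α ≠ 0) (v : V) :
    dg inc c v = cnt inc c α v + cnt inc c (opp α) v := by
  unfold dg
  rcases eq_one_or_two hα with rfl | rfl
  · rw [opp_one]
  · rw [opp_two, Nat.add_comm]

theorem St_alt {c : E → Fin 3} (h : St inc c) {α : Fin 3} (hα : α ≠ 0) (v : V) :
    cnt inc c α v ≤ 1 := by
  rcases eq_one_or_two hα with rfl | rfl
  · exact (h v).1
  · exact (h v).2

theorem St_opp {c : E → Fin 3} (h : St inc c) : St inc (fun e => opp (c e)) := by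
  intro v
  rw [cnt_opp, cnt_opp, opp_one, opp_two]
  exact ⟨(h v).2, (h v).1⟩

/-- a state can be normalised at a vertex of degree one -/
theorem norm1 {c : E → Fin 3} (h : St inc c) {α : Fin 3} (hα : α ≠ 0) {x : V}
    (hx : dg inc c x = 1) :
    ∃ c' : E → Fin 3, (∀ e, c' e ≠ 0 ↔ c e ≠ 0) ∧ St inc c' ∧ cnt inc c' α x = 1 ∧
      cnt inc c' (opp α) x = 0 ∧ (∀ v w, (cnt inc c 1 v ≠ cnt inc c 1 w) →
        dg inc c v = 1 → dg inc c w = 1 → cnt inc c' α v ≠ cnt inc c' α w) := by
  have key : ∀ v w, (cnt inc c 1 v ≠ cnt inc c 1 w) → dg inc c v = 1 → dg inc c w = 1 →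
      cnt inc c α v ≠ cnt inc c α w := by
    intro v w h1 h2 h3
    rcases eq_one_or_two hα with rfl | rfl
    · exact h1
    · unfold dg at h2 h3
      omega
  have hd := dg_alt c hα x (inc := inc)
  have h1 := St_alt h hα x
  rw [hx] at hd
  by_cases h0 : cnt inc c α x = 1
  · refine ⟨c, fun e => Iff.rfl, h, h0, by omega, key⟩
  · refine ⟨fun e => opp (c e), ?_, St_opp h, ?_, ?_, ?_⟩
    · intro e
      rw [Ne, opp_eq_zero]
    · rw [cnt_opp]
      omega
    · rw [cnt_opp, opp_opp]
      omega
    · intro v w h2 h3 h4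
      rw [cnt_opp, cnt_opp]
      have h5 := key v w h2 h3 h4
      have h6 := dg_alt c hα v (inc := inc)
      have h7 := dg_alt c hα w (inc := inc)
      omega

end

theorem flip : S_flip := by
  intro V E _ _ _ _ inc _ K hK x hx α hα
  obtain ⟨e, he, hxe⟩ := mem_VK.1 (kd_pos.1 (by omega : kd inc K x ≠ 0))
  obtain ⟨c0, hc0, hs0, hne⟩ := hK.col e he
  have hdx : dg inc c0 x = 1 := by
    have := dg_col he hc0 x (inc := inc)
    rw [if_pos hxe] at this
    omega
  obtain ⟨c1, h1, hs1, hx1, hx2, hn⟩ := norm1 hs0 hα hdx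
  have hc1 : ∀ e', c1 e' ≠ 0 ↔ (e' ∈ K ∧ e' ≠ e) := fun e' => (h1 e').trans (hc0 e')
  have he0 : c1 e = 0 := by
    by_contra h
    exact ((hc1 e).1 h).2 rfl
  have hop : opp α ≠ 0 := opp_ne_zero hα
  have hao : α ≠ opp α := (opp_ne_self hα).symm
  refine ⟨Function.update c1 e α, ?_, ?_, ?_, ?_, ?_⟩
  · intro e' h
    by_cases h2 : e' = e
    · rw [h2]
      exact he
    · rw [Function.update_of_ne h2] at h
      exact ((hc1 e').1 h).1
  · rw [cnt_update he0 α hα, hx1, if_pos ⟨hxe, rfl⟩]
  · rw [cnt_update he0 α hop, hx2, if_neg (fun h => hao h.2)]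
  · intro v hvx hv
    apply both_of hα (P := fun n => n = 1)
    · rw [cnt_update he0 α hα]
      by_cases hve : v ∈ inc e
      · rw [if_pos ⟨hve, rfl⟩]
        have hdv : dg inc c0 v = 1 := by
          have := dg_col he hc0 v (inc := inc)
          rw [if_pos hve] at this
          omega
        have h3 := hn x v (hne x hxe v hve (Ne.symm hvx) hx hv) hdx hdv
        have h4 := St_alt hs1 hα v
        omega
      · rw [if_neg (fun h => hve h.1)]
        have h3 := dg_col he hc1 v (inc := inc)
        rw [if_neg hve, hv] at h3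
        have h4 := St_two hs1 h3.symm
        rcases eq_one_or_two hα with rfl | rfl
        · omega
        · omega
    · rw [cnt_update he0 α hop, if_neg (fun h => hao h.2)]
      by_cases hve : v ∈ inc e
      · have hdv : dg inc c0 v = 1 := by
          have := dg_col he hc0 v (inc := inc)
          rw [if_pos hve] at this
          omega
        have hdv1 : dg inc c1 v = 1 := by
          have := dg_col he hc1 v (inc := inc)
          rw [if_pos hve] at this
          omega
        have h3 := hn x v (hne x hxe v hve (Ne.symm hvx) hx hv) hdx hdv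
        have h4 := St_alt hs1 hα v
        have h5 := dg_alt c1 hα v (inc := inc)
        omega
      · have h3 := dg_col he hc1 v (inc := inc)
        rw [if_neg hve, hv] at h3
        have h4 := St_two hs1 h3.symm
        rcases eq_one_or_two hα with rfl | rfl
        · rw [opp_one]
          omega
        · rw [opp_two]
          omega
  · intro v hv
    have h2 := dg_update (inc := inc) he0 hα v
    have h3 := dg_col he hc1 v (inc := inc)
    unfold dg at h2 h3
    omega

theorem del : S_del := by
  intro V E _ _ _ _ inc _ K hK e he y hy hye γ hγ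
  obtain ⟨c0, hc0, hs0, -⟩ := hK.col e he
  have hop : opp γ ≠ 0 := opp_ne_zero hγ
  by_cases h : kd inc K y = 1 ∨ y ∈ inc e
  · have hd : dg inc c0 y = 1 := by
      have h1 := dg_col he hc0 y (inc := inc)
      have h2 := kd_pos.2 hy
      have h3 := hK.kd2 y
      by_cases h4 : kd inc K y = 1
      · rw [if_neg (hye h4)] at h1
        omega
      · have h5 : y ∈ inc e := by
          rcases h with h | h
          · exact absurd h h4
          · exact h
        rw [if_pos h5] at h1
        omega
    obtain ⟨c1, h1, hs1, hx1, hx2, -⟩ := norm1 hs0 hop hd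
    rw [opp_opp] at hx2
    exact ⟨c1, fun e' => (h1 e').trans (hc0 e'), hs1, fun _ => ⟨hx2, hx1⟩⟩
  · exact ⟨c0, hc0, hs0, fun h' => absurd h' h⟩

theorem hit : S_flip → S_del → S_hit := by
  intro hflip hdel V E _ _ _ _ inc h3 K hK x hx γ hγ
  have hkx := kd_pos.2 hx
  have hkx2 := hK.kd2 x
  have hop : opp γ ≠ 0 := opp_ne_zero hγ
  by_cases h2 : kd inc K x = 2
  · obtain ⟨c, hc, c1, c2, c3, c4⟩ := hflip V E inc h3 K hK x h2 (opp γ) hop
    rw [opp_opp] at c2
    refine ⟨c, hc, ?_⟩
    intro v hv
    by_cases hvx : v = x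
    · subst hvx
      rcases eq_one_or_two hγ with rfl | rfl
      · left
        simp [c2]
      · right
        simp [c2]
    · have hkv := kd_pos.2 hv
      have hkv2 := hK.kd2 v
      have h0 : v ∉ ({x} : Finset V) := by simpa using hvx
      simp only [h0, false_and, if_false, Nat.add_zero]
      by_cases h4 : kd inc K v = 2
      · exact Or.inl (c3 v hvx h4).1
      · have := c4 v (by omega)
        omega
  · have hk1 : kd inc K x = 1 := by omega
    obtain ⟨e, he, hxe⟩ := mem_VK.1 hx
    obtain ⟨p, hp, hp1, hp2⟩ := hK.pri1 e he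
    have hxp : x = p := by
      by_contra h
      have := hp2 x hxe h
      omega
    subst hxp
    obtain ⟨y, hy, hyx⟩ : ∃ y ∈ inc e, y ≠ x := by
      apply Finset.exists_mem_ne
      rw [h3 e]
      omega
    have hy2 := hp2 y hy hyx
    obtain ⟨c, hc, hs, -⟩ := hdel V E inc h3 K hK e he y (mem_VK.2 ⟨e, he, hy⟩)
      (fun h => by omega) γ hγ
    refine ⟨c, fun e' h => ((hc e').1 h).1, ?_⟩
    intro v hv
    by_cases hvx : v = x
    · subst hvx
      have h5 := dg_col he hc v (inc := inc)
      rw [if_pos hxe, hk1] at h5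
      unfold dg at h5
      rcases eq_one_or_two hγ with rfl | rfl
      · left
        simp
        omega
      · right
        simp
        omega
    · have h0 : v ∉ ({x} : Finset V) := by simpa using hvx
      simp only [h0, false_and, if_false, Nat.add_zero]
      have hkv := kd_pos.2 hv
      have hkv2 := hK.kd2 v
      have h5 := dg_col he hc v (inc := inc)
      have h6 := hs v
      by_cases hve : v ∈ inc e
      · have := hp2 v hve hvx
        rw [if_pos hve] at h5
        unfold dg at h5
        omega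
      · rw [if_neg hve] at h5
        unfold dg at h5
        omega

end Pool.Agent.W260.CF3
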